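import Pool.Agent.H428.AX.All

/-!
# The laws for all the cube-free elements
-/

set_option autoImplicit false
set_option linter.all false

open Filter Topology
open scoped Classical

namespace Pool.Agent.H428.AX

open Finset NumberField
open Pool.Agent.Y692.QS (Ei w nr nr_mul nr_nonneg nr_one)
open Pool.Agent.Y703.XL (cr)
open Pool.Agent.H462.JL (Cf3 CfK CfK_iff badK CorKG AKm twK CKm NeK bsK cellsK upAm upCm)

section
variable {K : Type} [Field K] [NumberField K] {I : Type}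

/-- not a unit and not left out -/
def Gd (B : 𝓞 K) : Prop := ¬ IsUnit B ∧ ¬ badK B

/-- the cube-free elements prime to `3` and to the `A i` -/
def upF (A : I → 𝓞 K) (X : ℕ) : Set (𝓞 K) :=
  {D | Algebra.norm ℤ D ≤ X ∧ CfK D ∧ ∀ i, IsCoprime (A i) D}

lemma not_three_of_prim [IsCyclotomicExtension {3} ℚ K] {c : 𝓞 K} (h : (3 : 𝓞 K) ∣ c - 1) :
    ¬ (3 : ℤ) ∣ Algebra.norm ℤ c := by
  obtain ⟨⟨j, hj⟩, -⟩ := Pool.Agent.Y455.CTK.jex K
  obtain ⟨z, rfl⟩ := j.surjective c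
  have h1 : (3 : Ei) ∣ z - 1 := by
    have h2 : j (3 : Ei) ∣ j (z - 1) := by
      rw [map_sub, map_one, map_ofNat]
      exact h
    have := map_dvd j.symm h2
    simpa using this
  rw [hj]
  obtain ⟨t, ht⟩ := h1
  have h2 : z = 1 + 3 * t := by rw [← ht]; ring
  have a1 : (1 : Ei).re = 1 := rfl
  have a2 : (1 : Ei).im = 0 := rfl
  have a3 : (3 : Ei).re = 3 := rfl
  have a4 : (3 : Ei).im = 0 := rfl
  have h3 : z.re = 1 + 3 * t.re := by
    rw [h2]
    simp [a1, a3, a4]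
  have h4 : z.im = 3 * t.im := by
    rw [h2]
    simp [a2, a3, a4]
  unfold nr
  rw [h3, h4]
  intro h5
  have h6 : (3 : ℤ) ∣ 3 * (2 * t.re + 3 * t.re ^ 2 - t.im - 3 * t.re * t.im + 3 * t.im ^ 2) + 1 := by
    convert h5 using 1
    ring
  omega

lemma cf_mul [IsCyclotomicExtension {3} ℚ K] {a c : 𝓞 K} (ha : CfK a) (hc : Squarefree c)
    (h3 : (3 : 𝓞 K) ∣ c - 1) (hco : IsCoprime a c) : CfK (a * c ^ 2) := by
  refine ⟨fun π hπ hd => ?_, ?_⟩
  · by_cases hpD : π ∣ c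
    · have k1 : ¬ π ∣ a := fun h => hπ.not_isUnit (hco.isUnit_of_dvd' h hpD)
      have h4 : π ^ 3 ∣ c ^ 2 := hπ.pow_dvd_of_dvd_mul_left 3 k1 hd
      obtain ⟨t, rfl⟩ := hpD
      have h5 : π ^ 3 = π ^ 2 * π := by ring
      rw [mul_pow, h5] at h4
      have h6 := (mul_dvd_mul_iff_left (pow_ne_zero 2 hπ.ne_zero)).1 h4
      have h7 := hπ.dvd_of_dvd_pow h6
      exact hπ.not_isUnit (hc π (mul_dvd_mul_left π h7))
    · exact ha.1 π hπ (hπ.pow_dvd_of_dvd_mul_right 3 (fun h => hpD (hπ.dvd_of_dvd_pow h)) hd)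
  · rw [map_mul, map_pow]
    intro h
    rcases Int.prime_three.dvd_or_dvd h with h | h
    · exact ha.2 h
    · exact not_three_of_prim h3 (Int.prime_three.dvd_of_dvd_pow h)

lemma cells_mul [IsCyclotomicExtension {3} ℚ K] (A : I → 𝓞 K) {c : 𝓞 K}
    (h3 : (3 : 𝓞 K) ∣ c - 1) :
    cellsK (fun i => A i * c ^ 2) (fun _ => false) = cellsK A (fun _ => false) := by
  have hc1 : Ideal.Quotient.mk (Ideal.span {(3 : 𝓞 K)}) c = 1 := by
    rw [← map_one (Ideal.Quotient.mk (Ideal.span {(3 : 𝓞 K)})), Ideal.Quotient.eq,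
      Ideal.mem_span_singleton]
    exact h3
  have hu : IsUnit ((Algebra.norm ℤ c : ℤ) : ZMod 9) := by
    rw [ZMod.coe_int_isUnit_iff_isCoprime]
    have h1 : IsCoprime (3 : ℤ) (Algebra.norm ℤ c) :=
      Int.prime_three.coprime_iff_not_dvd.2 (not_three_of_prim h3)
    have h2 := h1.pow_left (m := 2)
    norm_num at h2 ⊢
    exact h2
  have hu2 : IsUnit (((Algebra.norm ℤ c : ℤ) : ZMod 9) ^ 2) := hu.pow 2
  have hinj : Function.Injective
      (fun x : (𝓞 K ⧸ Ideal.span {(3 : 𝓞 K)}) × ZMod 9 =>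
        (x.1, x.2 * ((Algebra.norm ℤ c : ℤ) : ZMod 9) ^ 2)) := by
    intro x y h
    simp only [Prod.mk.injEq] at h
    exact Prod.ext h.1 (hu2.mul_right_cancel h.2)
  unfold cellsK
  rw [← Set.ncard_image_of_injective (Set.range fun i =>
    (Ideal.Quotient.mk (Ideal.span {(3 : 𝓞 K)}) (bsK ((fun _ => false) i) (A i) ^ 2),
    ((Algebra.norm ℤ (bsK ((fun _ => false) i) (A i)) : ℤ) : ZMod 9))) hinj, ← Set.range_comp]
  congr 2
  funext i
  simp only [Function.comp_apply, bsK, Bool.false_eq_true, if_false, Prod.mk.injEq]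
  constructor
  · rw [mul_pow, map_mul, map_pow, map_pow, map_pow, hc1, one_pow, one_pow, mul_one]
  · rw [map_mul, map_pow]
    push_cast
    ring

lemma ne_mul {A : I → 𝓞 K} {c : 𝓞 K} (hc : c ≠ 0) (h : NeK A (fun _ => false)) :
    NeK (fun i => A i * c ^ 2) (fun _ => false) := by
  intro i j hij u
  have h1 := h i j hij u
  rw [if_pos rfl] at h1 ⊢
  intro h2
  apply h1
  have h3 : ((c : 𝓞 K) : K) ^ 2 ≠ 0 := pow_ne_zero 2 (by
    intro h4
    exact hc (by exact_mod_cast h4))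
  push_cast at h2
  apply mul_right_cancel₀ h3
  rw [h2]
  ring

end

section
variable {K : Type} [Field K] [NumberField K] [IsCyclotomicExtension {3} ℚ K] {I : Type} [Fintype I]

/-- a set with finitely many more elements -/
lemma tend_add {a b u : ℕ → ℕ} {k : ℕ} {w : ℝ} (h1 : ∀ X, b X ≤ a X) (h2 : ∀ X, a X ≤ b X + k)
    (hu : Tendsto (fun X => (u X : ℝ)) atTop atTop)
    (h : Tendsto (fun X => (b X : ℝ) / (u X : ℝ)) atTop (𝓝 w)) :
    Tendsto (fun X => (a X : ℝ) / (u X : ℝ)) atTop (𝓝 w) := by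
  have h3 : Tendsto (fun X => (k : ℝ) / (u X : ℝ)) atTop (𝓝 0) := hu.const_div_atTop _
  have h4 := h.add h3
  rw [add_zero] at h4
  refine tendsto_of_tendsto_of_tendsto_of_le_of_le h h4 (fun X => ?_) (fun X => ?_)
  · exact div_le_div_of_nonneg_right (Nat.cast_le.2 (h1 X)) (Nat.cast_nonneg _)
  · show (a X : ℝ) / (u X : ℝ) ≤ (b X : ℝ) / (u X : ℝ) + (k : ℝ) / (u X : ℝ)
    rw [← add_div]
    exact div_le_div_of_nonneg_right (by exact_mod_cast h2 X) (Nat.cast_nonneg _)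

/-- **From the squarefree elements to all the cube-free elements.** -/
theorem transfer [Nonempty I] {A : I → 𝓞 K} (hA : ∀ i, CfK (A i)) (P : 𝓞 K → Prop) (w : ℝ)
    (h : ∀ c : 𝓞 K, c ≠ 0 → (3 : 𝓞 K) ∣ c - 1 → (∀ i, CfK (A i * c ^ 2)) →
      Tendsto (fun X : ℕ =>
        (({D ∈ upCm (fun i => A i * c ^ 2) (fun _ => false) X | P (c ^ 2 * D)}.ncard : ℕ) : ℝ) /
          ((upAm (fun i => A i * c ^ 2) X).ncard : ℝ)) atTop (𝓝 w)) :
    Tendsto (fun X : ℕ => (({D ∈ upF A X | (∀ i, Gd (A i * D)) ∧ P D}.ncard : ℕ) : ℝ) /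
      ((upF A X).ncard : ℝ)) atTop (𝓝 w) := by
  obtain ⟨h1, ⟨c₁, hc₁, X₁, h2⟩, -⟩ :=
    Pool.Agent.H462.JL.finalJ K A (fun _ => false) hA
  have hlow : ∀ᶠ X : ℕ in atTop, c₁ * X ≤ ((famK A 1 (fun _ => True) X).ncard : ℝ) := by
    filter_upwards [eventually_ge_atTop X₁] with X hX
    have h3 : famK A 1 (fun _ => True) X = upAm A X := by
      ext D
      unfold famK upAm AKm Pool.Agent.H462.CTU.K.AK
      simp only [one_pow, mul_one, and_true, Set.mem_setOf_eq]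
    rw [h3]
    exact h2 X hX
  have key := all_K A (fun B => (∀ i, Gd (A i * B)) ∧ P B) w c₁ hc₁ hlow fun c hc h3 hco => ?_
  · have e1 : ∀ X, allK A (fun B => (∀ i, Gd (A i * B)) ∧ P B) X =
        {D ∈ upF A X | (∀ i, Gd (A i * D)) ∧ P D} := by
      intro X
      ext D
      exact ⟨fun h => ⟨⟨h.1, h.2.1⟩, h.2.2⟩, fun h => ⟨h.1.1, h.1.2, h.2⟩⟩
    have e2 : ∀ X, allK A (fun _ => True) X = upF A X := by
      intro X
      ext D
      exact ⟨fun h => ⟨h.1, h.2.1⟩, fun h => ⟨h.1, h.2, trivial⟩⟩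
    simp only [e1, e2] at key
    exact key
  · have hc0 : c ≠ 0 := hc.ne_zero
    have hAc : ∀ i, CfK (A i * c ^ 2) := fun i => cf_mul (hA i) hc h3 (hco i)
    obtain ⟨k1, ⟨c₂, hc₂, X₂, k2⟩, -⟩ :=
      Pool.Agent.H462.JL.finalJ K (fun i => A i * c ^ 2) (fun _ => false) hAc
    have e2 : ∀ X, famK A c (fun _ => True) X = upAm (fun i => A i * c ^ 2) X := by
      intro X
      ext D
      exact ⟨fun h => ⟨h.1, h.2.1⟩, fun h => ⟨h.1, h.2, trivial⟩⟩
    simp only [e2]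
    refine tend_add (k := (upAm (fun i => A i * c ^ 2) 1).ncard) (fun X => ?_) (fun X => ?_) ?_
      (h c hc0 h3 hAc)
    · refine Set.ncard_le_ncard ?_ ((k1 X).subset fun D hD => ⟨hD.1, hD.2.1⟩)
      rintro D ⟨⟨m1, m2, m3, m4⟩, m5⟩
      refine ⟨m1, m2, fun i => ⟨fun hu => m3 ?_, fun hb => m4 i ?_⟩, m5⟩
      · exact isUnit_of_dvd_unit ((dvd_mul_left D (c ^ 2)).trans (dvd_mul_left _ _)) hu
      · have e : twK false (A i * c ^ 2) D = A i * (c ^ 2 * D) := by
          unfold twK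
          rw [if_neg (by decide)]
          ring
        rw [e]
        exact hb
    · refine (Set.ncard_le_ncard (t := {D ∈ upCm (fun i => A i * c ^ 2) (fun _ => false) X |
        P (c ^ 2 * D)} ∪ upAm (fun i => A i * c ^ 2) 1) ?_
        (((k1 X).subset fun D hD => ⟨hD.1.1, hD.1.2.1⟩).union (k1 1))).trans
        (Set.ncard_union_le _ _)
      rintro D ⟨m1, m2, m3, m4⟩
      by_cases hu : IsUnit D
      · right
        refine ⟨?_, m2⟩
        have h5 : IsUnit (Algebra.norm ℤ D) := hu.map _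
        rcases Int.isUnit_iff.1 h5 with h6 | h6
        · rw [h6]
          norm_num
        · rw [h6]
          norm_num
      · left
        refine ⟨⟨m1, m2, hu, fun i => ?_⟩, m4⟩
        have e : twK false (A i * c ^ 2) D = A i * (c ^ 2 * D) := by
          unfold twK
          rw [if_neg (by decide)]
          ring
        rw [e]
        exact (m3 i).2
    · have h5 : Tendsto (fun X : ℕ => c₂ * (X : ℝ)) atTop atTop :=
        tendsto_natCast_atTop_atTop.const_mul_atTop hc₂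
      refine tendsto_atTop_mono' _ ?_ h5
      filter_upwards [eventually_ge_atTop X₂] with X hX
      exact k2 X hX

/-- **The law for all the cube-free elements.** -/
theorem final_law [Nonempty I] {A : I → 𝓞 K} (hA : ∀ i, CfK (A i)) :
    (∀ X, (upF A X).Finite) ∧
    (∃ c : ℝ, 0 < c ∧ ∃ X₀ : ℕ, ∀ X : ℕ, X₀ ≤ X → c * X ≤ ((upF A X).ncard : ℝ)) ∧
    Tendsto (fun X : ℕ => (({D ∈ upF A X | ∀ i, Gd (A i * D)}.ncard : ℕ) : ℝ) /
      ((upF A X).ncard : ℝ)) atTop (𝓝 ((9 - cellsK A (fun _ => false)) / 9)) ∧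
    (NeK A (fun _ => false) → ∀ r : I → ℕ, Tendsto (fun X : ℕ =>
      (({D ∈ upF A X | (∀ i, Gd (A i * D)) ∧ ∀ i, CorKG (A i * D) (r i)}.ncard : ℕ) : ℝ) /
        ((upF A X).ncard : ℝ)) atTop (𝓝 ((9 - cellsK A (fun _ => false)) / 9 * ∏ i, cr (r i)))) := by
  have hfin : ∀ X, (upF A X).Finite := by
    intro X
    obtain ⟨⟨j, hj⟩, -⟩ := Pool.Agent.Y455.CTK.jex K
    have h1 : {D : Ei | nr D ≤ X}.Finite :=
      (Pool.Agent.Y699.E.fin_norm_le X).subset fun D hD => Pool.Agent.Y699.E.nr_le.1 hD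
    refine (h1.image j).subset ?_
    rintro D ⟨h2, -⟩
    obtain ⟨z, rfl⟩ := j.surjective D
    rw [hj] at h2
    exact ⟨z, h2, rfl⟩
  obtain ⟨h1, ⟨c₁, hc₁, X₁, h2⟩, -⟩ :=
    Pool.Agent.H462.JL.finalJ K A (fun _ => false) hA
  refine ⟨hfin, ⟨c₁, hc₁, X₁, fun X hX => (h2 X hX).trans ?_⟩, ?_, fun hne r => ?_⟩
  · norm_cast
    refine Set.ncard_le_ncard ?_ (hfin X)
    rintro D ⟨m1, ⟨m2, m3⟩, m4⟩
    refine ⟨m1, ⟨fun π hπ hd => ?_, m3⟩, m4⟩
    have h3 : π * π ∣ D := (Dvd.intro π (by ring)).trans hd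
    exact hπ.not_isUnit (m2 π h3)
  · have key := transfer hA (fun _ => True) ((9 - cellsK A (fun _ => false)) / 9)
      fun c hc0 h3 hAc => ?_
    · simp only [and_true] at key
      exact key
    · obtain ⟨-, -, -, k4, -⟩ :=
        Pool.Agent.H462.JL.finalJ K (fun i => A i * c ^ 2) (fun _ => false) hAc
      rw [cells_mul A h3] at k4
      refine k4.congr fun X => ?_
      congr 3
      ext D
      exact ⟨fun h => ⟨h, trivial⟩, fun h => h.1⟩
  · refine transfer hA (fun D => ∀ i, CorKG (A i * D) (r i)) _ fun c hc0 h3 hAc => ?_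
    obtain ⟨-, -, -, -, -, k6, -⟩ :=
      Pool.Agent.H462.JL.finalJ K (fun i => A i * c ^ 2) (fun _ => false) hAc
    have k7 := k6 (ne_mul hc0 hne) r
    rw [cells_mul A h3] at k7
    refine k7.congr fun X => ?_
    congr 3
    ext D
    refine and_congr_right fun _ => forall_congr' fun i => ?_
    have e : twK false (A i * c ^ 2) D = A i * (c ^ 2 * D) := by
      unfold twK
      rw [if_neg (by decide)]
      ring
    rw [e]

end

end Pool.Agent.H428.AX
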