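import Pool.Agent.H428.AX.Mix

/-!
# From the squarefree elements to the cube-free elements: the theorem
-/

set_option autoImplicit false
set_option linter.all false

open Filter Topology
open scoped Classical

namespace Pool.Agent.H428.AX

open Finset NumberField
open Pool.Agent.Y692.QS (Ei w nr nr_mul nr_nonneg nr_one)
open Pool.Agent.Y699.E (PD mem_PD PS PS_one PS_prod SB mem_SB nrm nrm_mul nrm_one nrm_one_iff pq_cop exists_PP
  nrm_pos' nrm_cast prm card_SB_le nrm_zero_iff fin_norm_le)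
open Pool.Agent.Y715.T.RecG (Pq)
open Pool.Agent.H462.JL (Cf3 CfK CfK_iff)
open Pool.Agent.H462.CTU.Law.Cou (un un_ne nrm_un A0 exists_el)

section Ei

variable {I : Type} (A : I → Ei)

/-- the cube-free elements -/
def allC (P : Ei → Prop) (X : ℕ) : Set Ei := {B | nr B ≤ X ∧ (Cf3 B ∧ ∀ i, IsCoprime (A i) B) ∧ P B}

/-- the family of `c` -/
def famC (c : Ei) (P : Ei → Prop) (Y : ℕ) : Set Ei :=
  {D | nr D ≤ Y ∧ (A0 D ∧ ∀ i, IsCoprime (A i * c ^ 2) D) ∧ P (c ^ 2 * D)}

/-- the `c` -/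
noncomputable def Cx (X : ℕ) : Finset Ei :=
  (SB X).filter fun c => ¬ (3 : ℤ) ∣ nr c ∧ ∀ i, IsCoprime (A i) c

lemma nr_le_iff {D : Ei} {Y : ℕ} : nr D ≤ (Y : ℤ) ↔ nrm D ≤ Y := by
  rw [← nrm_cast]
  exact_mod_cast Iff.rfl

lemma fin_all (P : Ei → Prop) (X : ℕ) : (allC A P X).Finite :=
  (fin_norm_le X).subset fun D hD => nr_le_iff.1 hD.1

lemma fin_fam (c : Ei) (P : Ei → Prop) (Y : ℕ) : (famC A c P Y).Finite :=
  (fin_norm_le Y).subset fun D hD => nr_le_iff.1 hD.1

lemma le_div {c D : Ei} (hc : c ≠ 0) {X : ℕ} : nr D ≤ ((X / nrm c ^ 2 : ℕ) : ℤ) ↔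
    nr (c ^ 2 * D) ≤ (X : ℤ) := by
  rw [nr_le_iff, nr_le_iff, nrm_mul, pow_two c, nrm_mul, ← pow_two (nrm c),
    Nat.le_div_iff_mul_le (pow_pos (nrm_pos' hc) 2), mul_comm]

lemma all_eq [Nonempty I] (P : Ei → Prop) (X : ℕ) :
    allC A P X = ⋃ c ∈ Cx A X, (fun D => c ^ 2 * D) '' famC A c P (X / nrm c ^ 2) := by
  obtain ⟨i₀⟩ : Nonempty I := inferInstance
  ext B
  simp only [Set.mem_iUnion]
  constructor
  · rintro ⟨h1, ⟨h2, h3⟩, h4⟩
    obtain ⟨c, D, hc, hD, hco, rfl⟩ := exists_dec h2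
    have hc3 : ¬ (3 : ℤ) ∣ nr c := fun h => h2.2 (by
      rw [nr_mul, pow_two, nr_mul]
      exact (h.mul_right _).mul_right _)
    have hcA : ∀ i, IsCoprime (A i) c := fun i =>
      IsCoprime.of_mul_right_left ((pow_two c ▸ (h3 i).of_mul_right_left : IsCoprime (A i) (c * c)))
    have hD0 : D ≠ 0 := fun h0 => by
      subst h0
      exact hD.2 (by decide)
    refine ⟨c, ?_, D, ⟨(le_div hc.ne).2 h1, ⟨hD, fun i => ?_⟩, h4⟩, rfl⟩
    · unfold Cx
      rw [mem_filter, mem_SB]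
      refine ⟨⟨?_, hc⟩, hc3, hcA⟩
      have h5 := nr_le_iff.1 h1
      rw [nrm_mul, pow_two, nrm_mul] at h5
      have h6 := nrm_pos' hD0
      have h7 := nrm_pos' hc.ne
      calc nrm c ≤ nrm c * (nrm c * nrm D) := Nat.le_mul_of_pos_right _ (by positivity)
        _ = nrm c * nrm c * nrm D := by ring
        _ ≤ X := h5
    · exact IsCoprime.mul_left (h3 i).of_mul_right_right hco.pow_left
  · rintro ⟨c, hc, D, ⟨h1, ⟨h2, h3⟩, h4⟩, rfl⟩
    unfold Cx at hc
    rw [mem_filter, mem_SB] at hc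
    obtain ⟨⟨-, hc1⟩, hc3, hcA⟩ := hc
    have hco : IsCoprime c D := by
      have h5 : IsCoprime (c ^ 2) D := (h3 i₀).of_mul_left_right
      exact (IsCoprime.pow_left_iff two_pos).1 h5
    refine ⟨(le_div hc1.ne).1 h1, ⟨cf_of hc1 hc3 h2 hco, fun i => ?_⟩, h4⟩
    exact IsCoprime.mul_right (hcA i).pow_right (h3 i).of_mul_left_left

lemma ncard_biUnion {α β : Type} (s : Finset α) (f : α → Set β) (hf : ∀ a ∈ s, (f a).Finite)
    (hd : ∀ a ∈ s, ∀ b ∈ s, a ≠ b → Disjoint (f a) (f b)) :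
    (⋃ a ∈ s, f a).ncard = ∑ a ∈ s, (f a).ncard := by
  induction s using Finset.induction_on with
  | empty => simp
  | insert a s ha ih =>
    have f2 : (⋃ b ∈ s, f b).Finite := s.finite_toSet.biUnion fun b hb =>
      hf b (mem_insert_of_mem hb)
    rw [Finset.set_biUnion_insert, Finset.sum_insert ha, Set.ncard_union_eq ?_ (hf a
      (mem_insert_self _ _)) f2, ih]
    · exact fun b hb => hf b (mem_insert_of_mem hb)
    · exact fun b hb c hc => hd b (mem_insert_of_mem hb) c (mem_insert_of_mem hc)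
    · rw [Set.disjoint_iUnion₂_right]
      intro b hb
      exact hd a (mem_insert_self _ _) b (mem_insert_of_mem hb) (fun h => ha (h ▸ hb))

lemma count [Nonempty I] (P : Ei → Prop) (X : ℕ) :
    (allC A P X).ncard = ∑ c ∈ Cx A X, (famC A c P (X / nrm c ^ 2)).ncard := by
  have hc0 : ∀ c ∈ Cx A X, PS c := fun c hc => (mem_SB.1 (mem_filter.1 hc).1).2
  rw [all_eq, ncard_biUnion]
  · refine Finset.sum_congr rfl fun c hc => ?_
    refine Set.ncard_image_of_injective _ fun D D' h => ?_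
    exact mul_left_cancel₀ (pow_ne_zero 2 (hc0 c hc).ne) h
  · intro c _
    exact (fin_fam A c P _).image _
  · intro c hc c' hc' hne
    rw [Set.disjoint_left]
    rintro B ⟨D, hD, rfl⟩ ⟨D', hD', h⟩
    exact hne (dec_unique (hc0 c hc) (hc0 c' hc') hD.2.1.1 hD'.2.1.1 h.symm)

lemma fam_le (c : Ei) (Y : ℕ) : ((famC A c (fun _ => True) Y).ncard : ℝ) ≤ 96 * Y := by
  rcases Nat.eq_zero_or_pos Y with h0 | h0
  · subst h0
    have : famC A c (fun _ => True) 0 = ∅ := by
      ext D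
      simp only [Set.mem_empty_iff_false, iff_false]
      rintro ⟨h1, ⟨h2, -⟩, -⟩
      have h3 := nr_le_iff.1 h1
      have h4 : D = 0 := nrm_zero_iff.1 (Nat.le_zero.1 h3)
      subst h4
      exact h2.2 (by decide)
    rw [this, Set.ncard_empty]
    simp
  · have h1 : famC A c (fun _ => True) Y ⊆
        ((((univ : Finset (Bool × ZMod 3)) ×ˢ SB Y).image fun x => un x.1 * x.2 : Finset Ei) :
          Set Ei) := by
      rintro D ⟨h1, ⟨h2, -⟩, -⟩
      obtain ⟨p, n, hn, rfl⟩ := exists_el h2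
      rw [Finset.mem_coe, mem_image]
      refine ⟨(p, n), ?_, rfl⟩
      rw [mem_product, mem_SB]
      refine ⟨mem_univ _, ?_, hn⟩
      have h3 := nr_le_iff.1 h1
      rwa [nrm_un] at h3
    have h2 : (famC A c (fun _ => True) Y).ncard ≤ 6 * (SB Y).card := by
      refine (Set.ncard_le_ncard h1 (Finset.finite_toSet _)).trans ?_
      rw [Set.ncard_coe_finset]
      refine card_image_le.trans ?_
      rw [card_product]
      have : (univ : Finset (Bool × ZMod 3)).card = 6 := by decide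
      rw [this]
    have h3 := card_SB_le h0
    have h4 : ((famC A c (fun _ => True) Y).ncard : ℝ) ≤ 6 * (SB Y).card := by exact_mod_cast h2
    linarith

/-- **The theorem for the Eisenstein integers.** -/
theorem all_Ei [Nonempty I] (P : Ei → Prop) (w c₁ : ℝ) (hc₁ : 0 < c₁)
    (hlow : ∀ᶠ X : ℕ in atTop, c₁ * X ≤ ((famC A 1 (fun _ => True) X).ncard : ℝ))
    (h : ∀ c, PS c → (∀ i, IsCoprime (A i) c) → Tendsto (fun Y : ℕ =>
      ((famC A c P Y).ncard : ℝ) / ((famC A c (fun _ => True) Y).ncard : ℝ)) atTop (𝓝 w)) :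
    Tendsto (fun X : ℕ => ((allC A P X).ncard : ℝ) / ((allC A (fun _ => True) X).ncard : ℝ)) atTop
      (𝓝 w) := by
  have hmem : ∀ X, ∀ c ∈ Cx A X, PS c ∧ ∀ i, IsCoprime (A i) c := fun X c hc =>
    ⟨(mem_SB.1 (mem_filter.1 hc).1).2, (mem_filter.1 hc).2.2⟩
  have key := mix (Cx A) (fun c Y => ((famC A c (fun _ => True) Y).ncard : ℝ))
    (fun c Y => ((famC A c P Y).ncard : ℝ)) w 96 c₁ (by norm_num) hc₁
    (fun X c hc => (hmem X c hc).1.ne) (fam_le A) (fun _ _ => Nat.cast_nonneg _)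
    (fun c Y => by
      norm_cast
      exact Set.ncard_le_ncard (fun D hD => ⟨hD.1, hD.2.1, trivial⟩) (fin_fam A c _ Y)) ?_ ?_
  · refine key.congr fun X => ?_
    rw [count, count]
    push_cast
    rfl
  · intro X c hc ε hε
    obtain ⟨h1, h2⟩ := hmem X c hc
    have h3 := Metric.tendsto_nhds.1 (h c h1 h2) (ε / 96) (by positivity)
    filter_upwards [h3] with Y hY
    rw [Real.dist_eq] at hY
    set F := ((famC A c (fun _ => True) Y).ncard : ℝ) with hF
    set G := ((famC A c P Y).ncard : ℝ) with hG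
    have hGF : G ≤ F := by
      rw [hF, hG]
      norm_cast
      exact Set.ncard_le_ncard (fun D hD => ⟨hD.1, hD.2.1, trivial⟩) (fin_fam A c _ Y)
    have hG0 : 0 ≤ G := Nat.cast_nonneg _
    rcases (hG0.trans hGF).eq_or_lt with h0 | h0
    · have h4 : G = 0 := le_antisymm (hGF.trans h0.symm.le) hG0
      rw [← h0, h4]
      simp only [mul_zero, sub_zero, abs_zero]
      positivity
    · have e1 : G - w * F = (G / F - w) * F := by
        field_simp
      rw [e1, abs_mul, abs_of_pos h0]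
      have h5 := fam_le A c Y
      calc |G / F - w| * F ≤ ε / 96 * (96 * Y) :=
            mul_le_mul hY.le h5 h0.le (by positivity)
        _ = ε * Y := by ring
  · filter_upwards [hlow, eventually_ge_atTop 1] with X hX hX1
    refine hX.trans ?_
    have h1 : (1 : Ei) ∈ Cx A X := by
      unfold Cx
      rw [mem_filter, mem_SB, nrm_one]
      exact ⟨⟨hX1, PS_one⟩, by decide, fun i => isCoprime_one_right⟩
    have h2 := Finset.single_le_sum (f := fun c =>
      ((famC A c (fun _ => True) (X / nrm c ^ 2)).ncard : ℝ)) (fun c _ => Nat.cast_nonneg _) h1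
    refine le_trans (le_of_eq ?_) h2
    show _ = ((famC A 1 (fun _ => True) (X / nrm 1 ^ 2)).ncard : ℝ)
    rw [nrm_one, one_pow, Nat.div_one]

end Ei

section K

variable {K : Type} [Field K] [NumberField K] {I : Type} (A : I → 𝓞 K)

/-- the cube-free elements -/
def allK (P : 𝓞 K → Prop) (X : ℕ) : Set (𝓞 K) :=
  {B | Algebra.norm ℤ B ≤ X ∧ (CfK B ∧ ∀ i, IsCoprime (A i) B) ∧ P B}

/-- the family of `c` -/
def famK (c : 𝓞 K) (P : 𝓞 K → Prop) (Y : ℕ) : Set (𝓞 K) :=
  {D | Algebra.norm ℤ D ≤ Y ∧ ((Squarefree D ∧ ¬ (3 : ℤ) ∣ Algebra.norm ℤ D) ∧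
    ∀ i, IsCoprime (A i * c ^ 2) D) ∧ P (c ^ 2 * D)}

/-- **The theorem over `K`.** -/
theorem all_K [IsCyclotomicExtension {3} ℚ K] [Nonempty I] (P : 𝓞 K → Prop) (w c₁ : ℝ)
    (hc₁ : 0 < c₁)
    (hlow : ∀ᶠ X : ℕ in atTop, c₁ * X ≤ ((famK A 1 (fun _ => True) X).ncard : ℝ))
    (h : ∀ c : 𝓞 K, Squarefree c → (3 : 𝓞 K) ∣ c - 1 → (∀ i, IsCoprime (A i) c) →
      Tendsto (fun Y : ℕ =>
        ((famK A c P Y).ncard : ℝ) / ((famK A c (fun _ => True) Y).ncard : ℝ)) atTop (𝓝 w)) :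
    Tendsto (fun X : ℕ => ((allK A P X).ncard : ℝ) / ((allK A (fun _ => True) X).ncard : ℝ)) atTop
      (𝓝 w) := by
  obtain ⟨⟨j, hj⟩, -⟩ := Pool.Agent.Y455.CTK.jex K
  let A' : I → Ei := fun i => j.symm (A i)
  have hA' : ∀ i, j (A' i) = A i := fun i => j.apply_symm_apply _
  have hco : ∀ a b : Ei, IsCoprime (j a) (j b) ↔ IsCoprime a b := by
    intro a b
    constructor
    · intro h1
      have h2 := h1.map (j.symm : 𝓞 K →+* Ei)
      simpa using h2
    · intro h1
      exact h1.map (j : Ei →+* 𝓞 K)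
  have hsq : ∀ a : Ei, Squarefree (j a) ↔ Squarefree a := by
    intro a
    constructor
    · intro h1 x hx
      have h2 := h1 (j x) (by rw [← map_mul]; exact map_dvd j hx)
      exact (MulEquiv.isUnit_map (j : Ei ≃* 𝓞 K)).1 h2
    · intro h1 x hx
      obtain ⟨y, rfl⟩ := j.surjective x
      have h2 : y * y ∣ a := by
        rw [← map_mul] at hx
        have := map_dvd j.symm hx
        simpa using this
      exact (h1 y h2).map j
  have e1 : ∀ (P : 𝓞 K → Prop) (X : ℕ), (allK A P X).ncard =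
      (allC A' (fun z => P (j z)) X).ncard := by
    intro P X
    refine Pool.Agent.Y696.XK.img_ncard j hj X (fun B => (Cf3 B ∧ ∀ i, IsCoprime (A' i) B) ∧ P (j B))
      (fun B => (CfK B ∧ ∀ i, IsCoprime (A i) B) ∧ P B) fun B => ?_
    rw [CfK_iff j hj B]
    refine and_congr_left fun _ => and_congr_right fun _ => forall_congr' fun i => ?_
    rw [← hco, hA']
  have e2 : ∀ (c : Ei) (P : 𝓞 K → Prop) (X : ℕ), (famK A (j c) P X).ncard =
      (famC A' c (fun z => P (j z)) X).ncard := by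
    intro c P X
    refine Pool.Agent.Y696.XK.img_ncard j hj X
      (fun D => (A0 D ∧ ∀ i, IsCoprime (A' i * c ^ 2) D) ∧ P (j (c ^ 2 * D)))
      (fun D => ((Squarefree D ∧ ¬ (3 : ℤ) ∣ Algebra.norm ℤ D) ∧
        ∀ i, IsCoprime (A i * (j c) ^ 2) D) ∧ P ((j c) ^ 2 * D)) fun D => ?_
    rw [map_mul, map_pow]
    refine and_congr_left fun _ => and_congr ?_ (forall_congr' fun i => ?_)
    · unfold A0
      rw [hsq, hj]
    · rw [← hco, map_mul, map_pow, hA']
  simp only [e1]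
  refine all_Ei A' (fun z => P (j z)) w c₁ hc₁ ?_ fun c hc hcA => ?_
  · filter_upwards [hlow] with X hX
    have h1 := e2 1 (fun _ => True) X
    rw [map_one] at h1
    rw [h1] at hX
    exact hX
  · have h1 := h (j c) ((hsq c).2 hc.sqf) (by
      have h2 := map_dvd j hc.prm
      rw [map_sub, map_one, map_ofNat] at h2
      exact h2) fun i => by
      rw [← hA', hco]
      exact hcA i
    simp only [e2] at h1
    exact h1

end K

end Pool.Agent.H428.AX
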