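import Pool.Agent.H462.JL.Fin

/-!
# Cube-free elements: `B = c² D`
-/

set_option autoImplicit false
set_option linter.all false

namespace Pool.Agent.H428.AX

open Finset
open scoped Classical
open Pool.Agent.Y692.QS (Ei w nr nr_mul nr_nonneg nr_one)
open Pool.Agent.Y699.E (PD mem_PD PS PS_prod SB mem_SB nrm nrm_mul nrm_one_iff pq_cop exists_PP nrm_pos' nrm_cast
  prm card_SB_le)
open Pool.Agent.Y715.T.RecG (Pq)
open Pool.Agent.H462.JL (Cf3)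
open Pool.Agent.H462.CTU.Law.Cou (A0)

lemma cf_ne {B : Ei} (h : ¬ (3 : ℤ) ∣ nr B) : B ≠ 0 := by
  rintro rfl
  exact h (by decide)

/-- a prime dividing an element prime to three -/
lemma not_three {B ρ : Ei} (h : ¬ (3 : ℤ) ∣ nr B) (hρ : Prime ρ) (hd : ρ ∣ B) : ¬ ρ ∣ 3 := by
  intro h3
  obtain ⟨t, ht⟩ := h3
  obtain ⟨s, rfl⟩ := hd
  have h1 : nr ρ * nr t = 9 := by
    rw [← nr_mul, ← ht]
    decide
  have h2 : nr ρ ≠ 1 := by
    intro h4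
    apply hρ.not_unit
    rw [← nrm_one_iff]
    have := nrm_cast ρ
    rw [h4] at this
    exact_mod_cast this
  have h5 := nr_nonneg ρ
  have h6 := nr_nonneg t
  have h7 : ¬ (3 : ℤ) ∣ nr ρ := fun h8 => h (by rw [nr_mul]; exact h8.mul_right _)
  have h9 : IsCoprime (nr ρ) (3 : ℤ) :=
    ((Int.prime_three.coprime_iff_not_dvd).2 h7).symm
  have h10 : IsCoprime (nr ρ) (9 : ℤ) := by
    have := h9.pow_right (n := 2)
    norm_num at this
    exact this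
  have h11 : nr ρ ∣ 9 := ⟨nr t, h1.symm⟩
  have h12 := h10.isUnit_of_dvd' dvd_rfl h11
  rcases Int.isUnit_iff.1 h12 with h13 | h13
  · exact h2 h13
  · omega

lemma sqf_of {D : Ei} (h0 : D ≠ 0) (h : ∀ ρ : Ei, Prime ρ → ¬ ρ ^ 2 ∣ D) : Squarefree D := by
  rw [squarefree_iff_irreducible_sq_not_dvd_of_ne_zero h0]
  intro x hx hd
  rw [← sq] at hd
  exact h x (irreducible_iff_prime.1 hx) hd

/-- the decomposition -/
theorem exists_dec {B : Ei} (hB : Cf3 B) :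
    ∃ c D : Ei, PS c ∧ A0 D ∧ IsCoprime c D ∧ B = c ^ 2 * D := by
  have hB0 := cf_ne hB.2
  let T := (PD B).filter fun π => π ^ 2 ∣ B
  have hT : ∀ π ∈ T, Pq π := fun π hπ => ((mem_PD hB0).1 (mem_filter.1 hπ).1).1
  obtain ⟨hc, hPD⟩ := PS_prod hT
  have hc2 : (∏ π ∈ T, π) ^ 2 ∣ B := by
    rw [← Finset.prod_pow]
    refine Finset.prod_dvd_of_coprime ?_ fun π hπ => (mem_filter.1 hπ).2
    intro π hπ ρ hρ hne
    exact (pq_cop (hT π hπ) (hT ρ hρ) hne).pow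
  obtain ⟨D, hD⟩ := hc2
  have hD0 : D ≠ 0 := by
    rintro rfl
    exact hB0 (by rw [hD, mul_zero])
  have hn : ¬ (3 : ℤ) ∣ nr D := fun h => hB.2 (by rw [hD, nr_mul]; exact h.mul_left _)
  have hDB : D ∣ B := Dvd.intro_left _ hD.symm
  have hcube : ∀ π ∈ T, ¬ π ∣ D := by
    intro π hπ h
    apply hB.1 π (hT π hπ).prime
    have h1 : π ^ 2 ∣ (∏ π ∈ T, π) ^ 2 := pow_dvd_pow_of_dvd (Finset.dvd_prod_of_mem _ hπ) 2
    rw [hD, pow_succ]
    exact mul_dvd_mul h1 h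
  refine ⟨∏ π ∈ T, π, D, hc, ⟨sqf_of hD0 fun ρ hρ h => ?_, hn⟩, ?_, hD⟩
  · have hρD : ρ ∣ D := (dvd_pow_self ρ two_ne_zero).trans h
    obtain ⟨π, hπ, ha⟩ := exists_PP hρ (not_three hn hρ hρD)
    have h1 : π ^ 2 ∣ D := ((ha.pow_pow (n := 2)).dvd).trans h
    have h2 : π ∈ T := by
      rw [mem_filter, mem_PD hB0]
      exact ⟨⟨hπ, (ha.dvd.trans hρD).trans hDB⟩, h1.trans hDB⟩
    exact hcube π h2 (ha.dvd.trans hρD)
  · refine IsCoprime.prod_left fun π hπ => ?_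
    exact ((hT π hπ).prime.coprime_iff_not_dvd).2 (hcube π hπ)

/-- the uniqueness -/
lemma dec_sub {c c' D D' : Ei} (hc : PS c) (hc' : PS c') (hD' : A0 D')
    (h : c ^ 2 * D = c' ^ 2 * D') : PD c ⊆ PD c' := by
  intro π hπ
  rw [mem_PD hc.ne] at hπ
  rw [mem_PD hc'.ne]
  refine ⟨hπ.1, ?_⟩
  by_contra hn
  have h1 : π ^ 2 ∣ c' ^ 2 * D' := by
    rw [← h]
    exact (pow_dvd_pow_of_dvd hπ.2 2).mul_right _
  have h2 : IsCoprime (π ^ 2) (c' ^ 2) := (hπ.1.prime.coprime_iff_not_dvd.2 hn).pow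
  have h3 : π ^ 2 ∣ D' := h2.dvd_of_dvd_mul_left h1
  rw [sq] at h3
  exact hπ.1.prime.not_unit (hD'.1 π h3)

theorem dec_unique {c c' D D' : Ei} (hc : PS c) (hc' : PS c') (hD : A0 D) (hD' : A0 D')
    (h : c ^ 2 * D = c' ^ 2 * D') : c = c' := by
  rw [← hc.prod, ← hc'.prod,
    (dec_sub hc hc' hD' h).antisymm (dec_sub hc' hc hD h.symm)]

/-- the converse -/
theorem cf_of {c D : Ei} (hc : PS c) (hc3 : ¬ (3 : ℤ) ∣ nr c) (hD : A0 D) (h : IsCoprime c D) :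
    Cf3 (c ^ 2 * D) := by
  refine ⟨fun π hπ hd => ?_, ?_⟩
  · by_cases h1 : π ∣ D
    · have h2 : ¬ π ∣ c := fun h3 => hπ.not_unit (h.isUnit_of_dvd' h3 h1)
      have h3 : π ^ 3 ∣ D := hπ.pow_dvd_of_dvd_mul_left 3 (fun h4 => h2 (hπ.dvd_of_dvd_pow h4)) hd
      have h4 : π * π ∣ D := (Dvd.intro π (by ring)).trans h3
      exact hπ.not_unit (hD.1 π h4)
    · have h3 : π ^ 3 ∣ c ^ 2 := hπ.pow_dvd_of_dvd_mul_right 3 h1 hd
      have h4 : π ∣ c := hπ.dvd_of_dvd_pow ((dvd_pow_self π (by norm_num)).trans h3)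
      obtain ⟨t, rfl⟩ := h4
      have h5 : π ^ 3 = π ^ 2 * π := by ring
      rw [mul_pow, h5] at h3
      have h6 := (mul_dvd_mul_iff_left (pow_ne_zero 2 hπ.ne_zero)).1 h3
      have h7 := hπ.dvd_of_dvd_pow h6
      exact hπ.not_unit (hc.sqf π (mul_dvd_mul_left π h7))
  · rw [nr_mul, pow_two, nr_mul]
    intro h1
    rcases Int.prime_three.dvd_or_dvd h1 with h2 | h2
    · rcases Int.prime_three.dvd_or_dvd h2 with h3 | h3
      · exact hc3 h3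
      · exact hc3 h3
    · exact hD.2 h2

end Pool.Agent.H428.AX
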