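import Pool.Agent.H428.AX.Dec

/-!
# From the squarefree elements to the cube-free elements: the density
-/

set_option autoImplicit false
set_option linter.all false

open Filter Topology
open scoped Classical

namespace Pool.Agent.H428.AX

open Finset
open Pool.Agent.Y692.QS (Ei w nr nr_mul nr_nonneg nr_one)
open Pool.Agent.Y699.E (PD mem_PD PS PS_prod SB mem_SB nrm nrm_mul nrm_one_iff pq_cop exists_PP nrm_pos' nrm_cast
  prm card_SB_le nrm_zero_iff fin_norm_le)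
open Pool.Agent.Y715.T.RecG (Pq)
open Pool.Agent.H462.JL (Cf3)
open Pool.Agent.H462.CTU.Law.Cou (A0)

/-! ### the convergence of `∑ 1 / N(c)²` -/

lemma sum_int : Summable fun a : ℤ => 1 / (1 + (a : ℝ) ^ 2) := by
  have h1 : Summable fun a : ℤ => 1 / (a : ℝ) ^ 2 := Real.summable_one_div_int_pow.2 one_lt_two
  refine Summable.of_norm_bounded_eventually h1 ?_
  have h2 : ({0}ᶜ : Set ℤ) ∈ cofinite := (Set.finite_singleton (0 : ℤ)).compl_mem_cofinite
  filter_upwards [h2] with a ha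
  have h3 : (a : ℝ) ≠ 0 := by exact_mod_cast ha
  have h4 : 0 < (a : ℝ) ^ 2 := by positivity
  rw [Real.norm_of_nonneg (by positivity)]
  exact one_div_le_one_div_of_le h4 (by linarith)

lemma sum_norm : Summable fun c : Ei => 1 / ((nrm c ^ 2 : ℕ) : ℝ) := by
  have h1 : Summable fun x : ℤ × ℤ => (1 / (1 + (x.1 : ℝ) ^ 2)) * (1 / (1 + (x.2 : ℝ) ^ 2)) :=
    sum_int.mul_of_nonneg sum_int (fun a => by positivity) (fun a => by positivity)
  have h2 : Function.Injective fun c : Ei => (c.re, c.im) := by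
    intro a b h
    simp only [Prod.mk.injEq] at h
    exact QuadraticAlgebra.ext h.1 h.2
  have h3 := (h1.comp_injective h2).mul_left (49 / 9)
  refine Summable.of_nonneg_of_le (fun c => by positivity) (fun c => ?_) h3
  by_cases h0 : c = 0
  · subst h0
    have : nrm (0 : Ei) = 0 := nrm_zero_iff.2 rfl
    rw [this]
    norm_num
  · have h4 : 0 < nrm c := nrm_pos' h0
    have h5 : ((nrm c : ℕ) : ℝ) = (c.re : ℝ) ^ 2 - c.re * c.im + (c.im : ℝ) ^ 2 := by
      have h6 := nrm_cast c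
      have h7 : ((nrm c : ℤ) : ℝ) = ((nr c : ℤ) : ℝ) := by rw [h6]
      rw [Int.cast_natCast] at h7
      rw [h7]
      unfold nr
      push_cast
      ring
    have h6 : (1 : ℝ) ≤ nrm c := by exact_mod_cast h4
    set a : ℝ := (c.re : ℝ)
    set b : ℝ := (c.im : ℝ)
    set N : ℝ := ((nrm c : ℕ) : ℝ)
    have h7 : 1 + a ^ 2 ≤ 7 / 3 * N := by nlinarith [sq_nonneg (a - 2 * b)]
    have h8 : 1 + b ^ 2 ≤ 7 / 3 * N := by nlinarith [sq_nonneg (b - 2 * a)]
    have h9 : (1 + a ^ 2) * (1 + b ^ 2) ≤ 49 / 9 * N ^ 2 := by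
      have := mul_le_mul h7 h8 (by positivity) (by positivity)
      linarith
    show 1 / ((nrm c ^ 2 : ℕ) : ℝ) ≤ 49 / 9 * (1 / (1 + a ^ 2) * (1 / (1 + b ^ 2)))
    rw [Nat.cast_pow]
    have h10 : 49 / 9 * (1 / (1 + a ^ 2) * (1 / (1 + b ^ 2))) =
        (49 / 9) / ((1 + a ^ 2) * (1 + b ^ 2)) := by
      field_simp
    rw [h10, div_le_div_iff₀ (by positivity) (by positivity), one_mul]
    exact h9

/-- the tails -/
lemma tail (ε : ℝ) (hε : 0 < ε) : ∃ s₀ : Finset Ei, ∀ t : Finset Ei, Disjoint t s₀ →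
    ∑ c ∈ t, 1 / ((nrm c ^ 2 : ℕ) : ℝ) < ε := by
  obtain ⟨s₀, h⟩ := summable_iff_vanishing_norm.1 sum_norm ε hε
  refine ⟨s₀, fun t ht => ?_⟩
  have h1 := h t ht
  rwa [Real.norm_of_nonneg (Finset.sum_nonneg fun c _ => by positivity)] at h1

/-! ### the mixture -/

/-- the abstract mixture -/
theorem mix (C : ℕ → Finset Ei) (F G : Ei → ℕ → ℝ) (w C₀ c₁ : ℝ) (hC₀ : 0 ≤ C₀) (hc₁ : 0 < c₁)
    (hC : ∀ X, ∀ c ∈ C X, c ≠ 0)
    (hF : ∀ c Y, F c Y ≤ C₀ * Y) (hG0 : ∀ c Y, 0 ≤ G c Y) (hGF : ∀ c Y, G c Y ≤ F c Y)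
    (hlim : ∀ X, ∀ c ∈ C X, ∀ ε : ℝ, 0 < ε → ∀ᶠ Y in atTop, |G c Y - w * F c Y| ≤ ε * Y)
    (hlow : ∀ᶠ X : ℕ in atTop, c₁ * X ≤ ∑ c ∈ C X, F c (X / nrm c ^ 2)) :
    Tendsto (fun X : ℕ => (∑ c ∈ C X, G c (X / nrm c ^ 2)) / ∑ c ∈ C X, F c (X / nrm c ^ 2))
      atTop (𝓝 w) := by
  rw [Metric.tendsto_nhds]
  intro ε hε
  obtain ⟨δ, hδ⟩ : ∃ δ : ℝ, δ = c₁ * ε / (4 * ((1 + |w|) * C₀ + 1)) := ⟨_, rfl⟩
  have hw0 : 0 ≤ |w| := abs_nonneg w
  have hδ0 : 0 < δ := by rw [hδ]; positivity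
  obtain ⟨s₀, hs₀⟩ := tail δ hδ0
  obtain ⟨η, hη⟩ : ∃ η : ℝ, η = c₁ * ε / (4 * (s₀.card + 1)) := ⟨_, rfl⟩
  have hη0 : 0 < η := by rw [hη]; positivity
  -- the finitely many small `c`
  have h1 : ∀ c ∈ s₀, ∀ᶠ X : ℕ in atTop, c ∈ C X →
      |G c (X / nrm c ^ 2) - w * F c (X / nrm c ^ 2)| ≤ η * X := by
    intro c _
    by_cases hc : ∃ X, c ∈ C X
    · obtain ⟨X₁, hX₁⟩ := hc
      have h2 := hlim X₁ c hX₁ η hη0
      have hn : nrm c ^ 2 ≠ 0 := pow_ne_zero 2 (nrm_pos' (hC X₁ c hX₁)).ne'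
      have h3 : Tendsto (fun X : ℕ => X / nrm c ^ 2) atTop atTop :=
        Nat.tendsto_div_const_atTop hn
      filter_upwards [h3.eventually h2] with X hX _
      refine hX.trans (mul_le_mul_of_nonneg_left ?_ hη0.le)
      exact_mod_cast Nat.div_le_self X _
    · exact Eventually.of_forall fun X hX => absurd ⟨X, hX⟩ hc
  have h2 : ∀ᶠ X : ℕ in atTop, ∀ c ∈ s₀, c ∈ C X →
      |G c (X / nrm c ^ 2) - w * F c (X / nrm c ^ 2)| ≤ η * X :=
    (Finset.eventually_all s₀).2 h1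
  filter_upwards [h2, hlow, eventually_ge_atTop 1] with X hX hlX hX1
  have hXp : (0 : ℝ) < X := by exact_mod_cast hX1
  set S := ∑ c ∈ C X, F c (X / nrm c ^ 2) with hS
  have hSp : 0 < S := lt_of_lt_of_le (mul_pos hc₁ hXp) hlX
  have key : |∑ c ∈ C X, G c (X / nrm c ^ 2) - w * S| ≤ c₁ * ε / 2 * X := by
    have e1 : ∑ c ∈ C X, G c (X / nrm c ^ 2) - w * S =
        ∑ c ∈ C X, (G c (X / nrm c ^ 2) - w * F c (X / nrm c ^ 2)) := by
      rw [Finset.sum_sub_distrib, hS, Finset.mul_sum]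
    rw [e1, ← Finset.sum_filter_add_sum_filter_not (C X) fun c => c ∈ s₀]
    refine (abs_add_le _ _).trans ?_
    have b1 : |∑ c ∈ (C X).filter fun c => c ∈ s₀,
        (G c (X / nrm c ^ 2) - w * F c (X / nrm c ^ 2))| ≤ c₁ * ε / 4 * X := by
      refine (Finset.abs_sum_le_sum_abs _ _).trans ?_
      have b2 : ∑ c ∈ (C X).filter fun c => c ∈ s₀,
          |G c (X / nrm c ^ 2) - w * F c (X / nrm c ^ 2)| ≤
          ∑ c ∈ (C X).filter fun c => c ∈ s₀, η * X := by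
        refine Finset.sum_le_sum fun c hc => ?_
        rw [Finset.mem_filter] at hc
        exact hX c hc.2 hc.1
      refine b2.trans ?_
      rw [Finset.sum_const, nsmul_eq_mul]
      have b3 : (((C X).filter fun c => c ∈ s₀).card : ℝ) ≤ s₀.card := by
        exact_mod_cast Finset.card_le_card fun c hc => (Finset.mem_filter.1 hc).2
      have b4 : (((C X).filter fun c => c ∈ s₀).card : ℝ) * (η * X) ≤ s₀.card * (η * X) :=
        mul_le_mul_of_nonneg_right b3 (by positivity)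
      refine b4.trans ?_
      rw [hη]
      have b5 : (s₀.card : ℝ) * (c₁ * ε / (4 * (s₀.card + 1)) * X) =
          (s₀.card : ℝ) / (s₀.card + 1) * (c₁ * ε / 4 * X) := by
        field_simp
      rw [b5]
      have b6 : (s₀.card : ℝ) / (s₀.card + 1) ≤ 1 := by
        rw [div_le_one (by positivity)]
        linarith
      have b7 : 0 ≤ c₁ * ε / 4 * X := by positivity
      nlinarith
    have b2 : |∑ c ∈ (C X).filter fun c => ¬ c ∈ s₀,
        (G c (X / nrm c ^ 2) - w * F c (X / nrm c ^ 2))| ≤ c₁ * ε / 4 * X := by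
      refine (Finset.abs_sum_le_sum_abs _ _).trans ?_
      have b3 : ∀ c ∈ (C X).filter (fun c => ¬ c ∈ s₀),
          |G c (X / nrm c ^ 2) - w * F c (X / nrm c ^ 2)| ≤
          (1 + |w|) * C₀ * X * (1 / ((nrm c ^ 2 : ℕ) : ℝ)) := by
        intro c hc
        have b4 := hF c (X / nrm c ^ 2)
        have b5 := hG0 c (X / nrm c ^ 2)
        have b6 := hGF c (X / nrm c ^ 2)
        have b7 : ((X / nrm c ^ 2 : ℕ) : ℝ) ≤ X * (1 / ((nrm c ^ 2 : ℕ) : ℝ)) := by
          rw [mul_one_div]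
          exact Nat.cast_div_le
        have b8 : |G c (X / nrm c ^ 2) - w * F c (X / nrm c ^ 2)| ≤
            (1 + |w|) * F c (X / nrm c ^ 2) := by
          refine (abs_sub _ _).trans ?_
          rw [abs_of_nonneg b5, abs_mul, abs_of_nonneg (b5.trans b6), add_mul, one_mul]
          linarith
        refine b8.trans ?_
        have b9 : F c (X / nrm c ^ 2) ≤ C₀ * (X * (1 / ((nrm c ^ 2 : ℕ) : ℝ))) :=
          b4.trans (mul_le_mul_of_nonneg_left b7 hC₀)
        calc (1 + |w|) * F c (X / nrm c ^ 2) ≤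
            (1 + |w|) * (C₀ * (X * (1 / ((nrm c ^ 2 : ℕ) : ℝ)))) :=
              mul_le_mul_of_nonneg_left b9 (by positivity)
          _ = _ := by ring
      refine (Finset.sum_le_sum b3).trans ?_
      rw [← Finset.mul_sum]
      have b4 := hs₀ ((C X).filter fun c => ¬ c ∈ s₀) (by
        rw [Finset.disjoint_left]
        intro c hc
        exact (Finset.mem_filter.1 hc).2)
      have b5 : (1 + |w|) * C₀ * X * ∑ c ∈ (C X).filter (fun c => ¬ c ∈ s₀),
          1 / ((nrm c ^ 2 : ℕ) : ℝ) ≤ (1 + |w|) * C₀ * X * δ :=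
        mul_le_mul_of_nonneg_left b4.le (by positivity)
      refine b5.trans ?_
      rw [hδ]
      have b6 : (1 + |w|) * C₀ * X * (c₁ * ε / (4 * ((1 + |w|) * C₀ + 1))) =
          ((1 + |w|) * C₀) / ((1 + |w|) * C₀ + 1) * (c₁ * ε / 4 * X) := by
        field_simp
      rw [b6]
      have b7 : ((1 + |w|) * C₀) / ((1 + |w|) * C₀ + 1) ≤ 1 := by
        rw [div_le_one (by positivity)]
        linarith
      have b8 : 0 ≤ c₁ * ε / 4 * X := by positivity
      nlinarith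
    calc _ ≤ c₁ * ε / 4 * X + c₁ * ε / 4 * X := add_le_add b1 b2
      _ = _ := by ring
  rw [Real.dist_eq]
  have e2 : (∑ c ∈ C X, G c (X / nrm c ^ 2)) / S - w = (∑ c ∈ C X, G c (X / nrm c ^ 2) - w * S) / S := by
    field_simp
  rw [e2, abs_div, abs_of_pos hSp, div_lt_iff₀ hSp]
  have h3 : c₁ * ε / 2 * X < ε * S := by
    have h4 : ε * (c₁ * X) ≤ ε * S := mul_le_mul_of_nonneg_left hlX hε.le
    have h5 : 0 < ε * (c₁ * X) := by positivity
    linarith
  exact key.trans_lt h3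

end Pool.Agent.H428.AX
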