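import Pool.Agent.H428.AX.Law
import Pool.Agent.H508.W.Jt

/-!
# The law of the set of the indices with corank zero, for all the cube-free elements
-/

set_option autoImplicit false
set_option linter.all false

open Filter Topology
open scoped Classical

namespace Pool.Agent.H428.AX

open Finset NumberField
open Pool.Agent.Y703.XL (cr)
open Pool.Agent.H462.JL (Cf3 CfK CfK_iff badK CorKG NeK cellsK corG_iff cor_unique)

variable {K : Type} [Field K] [NumberField K] [IsCyclotomicExtension {3} ℚ K]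

/-- the corank exists and is unique -/
theorem ex_cor {B : 𝓞 K} (hB : CfK B) (hu : ¬ IsUnit B) : ∃! r, CorKG B r := by
  obtain ⟨⟨j, hj⟩, -⟩ := Pool.Agent.Y455.CTK.jex K
  obtain ⟨z, rfl⟩ := j.surjective B
  have hz : Cf3 z := (CfK_iff j hj z).1 hB
  have hu' : ¬ IsUnit z := fun h => hu (h.map j)
  obtain ⟨p, T, f, k1, -, k3⟩ := Pool.Agent.H462.JL.exists_rep hz
  subst k3
  obtain ⟨r, hr⟩ := Pool.Agent.H462.JL.cor_ex' (fun ρ hρ => (k1 ρ hρ).1) f p hu'
  exact ⟨r, (corG_iff j hj _ r).2 hr, fun s hs => cor_unique ((corG_iff j hj _ s).1 hs) hr⟩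

omit [IsCyclotomicExtension {3} ℚ K] in
lemma cf_prod {A D : 𝓞 K} (hA : CfK A) (hD : CfK D) (h : IsCoprime A D) : CfK (A * D) := by
  refine ⟨fun π hπ hd => ?_, fun h3 => ?_⟩
  · by_cases h1 : π ∣ D
    · have h2 : ¬ π ∣ A := fun h3 => hπ.not_isUnit (h.isUnit_of_dvd' h3 h1)
      exact hD.1 π hπ (hπ.pow_dvd_of_dvd_mul_left 3 h2 hd)
    · exact hA.1 π hπ (hπ.pow_dvd_of_dvd_mul_right 3 h1 hd)
  · rw [map_mul] at h3
    rcases Int.prime_three.dvd_or_dvd h3 with h4 | h4
    · exact hA.2 h4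
    · exact hD.2 h4

/-- **The law of the set of the indices with corank zero.** -/
theorem T_law {m : ℕ} {A : Fin m → 𝓞 K} (hm : 0 < m) (hA : ∀ i, CfK (A i))
    (hne : NeK A (fun _ => false)) (T : Finset (Fin m)) :
    Tendsto (fun X : ℕ => (({D ∈ upF A X | (∀ i, Gd (A i * D)) ∧
      ∀ i, CorKG (A i * D) 0 ↔ i ∈ T}.ncard : ℕ) : ℝ) / ((upF A X).ncard : ℝ)) atTop
      (𝓝 ((9 - cellsK A (fun _ => false)) / 9 *
        (cr 0 ^ T.card * (1 - cr 0) ^ (m - T.card)))) := by
  have hN : Nonempty (Fin m) := ⟨⟨0, hm⟩⟩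
  obtain ⟨hfin, -, h3, h4⟩ := final_law hA
  obtain ⟨-, -, h9, -⟩ := Pool.Agent.H462.JL.finalJ K A (fun _ => false) hA
  let S : ℕ → Set (𝓞 K) := fun X => {D ∈ upF A X | ∀ i, Gd (A i * D)}
  have hS : ∀ X, (S X).Finite := fun X => (hfin X).subset fun D hD => hD.1
  have hex : ∀ X, ∀ D ∈ S X, ∀ i, ∃! r, CorKG (A i * D) r := fun X D hD i =>
    ex_cor (cf_prod (hA i) hD.1.2.1 (hD.1.2.2 i)) (hD.2 i).1
  let f : 𝓞 K → Fin m → ℕ := fun D i => if h : ∃ r, CorKG (A i * D) r then h.choose else 0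
  have hf : ∀ X, ∀ D ∈ S X, ∀ i r, (CorKG (A i * D) r ↔ f D i = r) := by
    intro X D hD i r
    have hE := hex X D hD i
    have h8 : ∃ r, CorKG (A i * D) r := hE.exists
    have h9 : f D i = h8.choose := dif_pos h8
    rw [h9]
    constructor
    · intro h
      exact hE.unique h8.choose_spec h
    · rintro rfl
      exact h8.choose_spec
  have e0 : ∀ (X : ℕ) (P : 𝓞 K → Prop), {D ∈ upF A X | (∀ i, Gd (A i * D)) ∧ P D} =
      {D ∈ S X | P D} := by
    intro X P
    ext D
    exact ⟨fun h => ⟨⟨h.1, h.2.1⟩, h.2.2⟩, fun h => ⟨h.1.1, h.1.2, h.2⟩⟩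
  rcases h9.lt_or_eq with h9 | h9
  · have h13 : (0 : ℝ) < (9 - cellsK A (fun _ => false)) / 9 := by
      have : (cellsK A (fun _ => false) : ℝ) < 9 := by exact_mod_cast h9
      linarith
    have h14 : ∀ᶠ X : ℕ in atTop, ((S X).ncard : ℝ) ≠ 0 := by
      filter_upwards [(tendsto_order.1 h3).1 0 h13] with X hX
      intro h0
      change (0 : ℝ) < ((S X).ncard : ℝ) / _ at hX
      rw [h0, zero_div] at hX
      exact lt_irrefl _ hX
    have h10 : ∀ r : Fin m → ℕ, Tendsto (Pool.Agent.H508.W.shr S fun D => f D = r) atTop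
        (𝓝 (∏ i, cr (r i))) := by
      intro r
      have h15 := (h4 hne r).div h3 h13.ne'
      rw [mul_div_cancel_left₀ _ h13.ne'] at h15
      have h16 : ∀ᶠ X : ℕ in atTop, ((upF A X).ncard : ℝ) ≠ 0 := by
        filter_upwards [(tendsto_order.1 h3).1 0 h13] with X hX
        intro h0
        change (0 : ℝ) < _ / ((upF A X).ncard : ℝ) at hX
        rw [h0, div_zero] at hX
        exact lt_irrefl _ hX
      refine h15.congr' ?_
      filter_upwards [h16] with X hX
      unfold Pool.Agent.H508.W.shr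
      show (({D ∈ upF A X | (∀ i, Gd (A i * D)) ∧ ∀ i, CorKG (A i * D) (r i)}.ncard : ℕ) : ℝ) /
        ((upF A X).ncard : ℝ) / (((S X).ncard : ℝ) / ((upF A X).ncard : ℝ)) = _
      rw [div_div_div_cancel_right₀ hX, e0]
      congr 3
      ext D
      refine and_congr_right fun hD => ?_
      show (∀ i, CorKG (A i * D) (r i)) ↔ f D = r
      rw [funext_iff]
      exact forall_congr' fun i => hf X D hD i (r i)
    have h11 := Pool.Agent.H508.W.exact_law hS (p := cr)
      (by
        have := Pool.Agent.Y703.XL.t_SUM'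
        exact this) h10 T
    refine (h3.mul h11).congr' ?_
    filter_upwards [h14] with X hX
    rw [e0]
    unfold Pool.Agent.H508.W.shr
    show ((S X).ncard : ℝ) / ((upF A X).ncard : ℝ) * _ = _
    rw [div_mul_div_comm, mul_comm ((S X).ncard : ℝ), mul_div_mul_right _ _ hX]
    congr 3
    ext D
    refine and_congr_right fun hD => forall_congr' fun i => ?_
    rw [hf X D hD i 0]
  · have h13 : (cellsK A (fun _ => false) : ℝ) = 9 := by exact_mod_cast h9
    rw [h13, sub_self, zero_div] at h3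
    rw [h13, sub_self, zero_div, zero_mul]
    refine squeeze_zero (fun X => by positivity) (fun X => ?_) h3
    refine div_le_div_of_nonneg_right ?_ (Nat.cast_nonneg _)
    norm_cast
    exact Set.ncard_le_ncard (fun D hD => ⟨hD.1, hD.2.1⟩) (hS X)

end Pool.Agent.H428.AX
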